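import Pool.Agent.H193R5.EG.Stmts
import Pool.Agent.H88R2.DC.ORD

set_option autoImplicit false

open MvPolynomial Pool.Agent.H88R2.DC Pool.Agent.H193R5.EG

namespace Pool.Agent.H790.EG

variable {K : Type} [Field K]

theorem weight_eq (w : Fin 2 → ℕ) (d : Fin 2 →₀ ℕ) :
    Finsupp.weight w d = d 0 * w 0 + d 1 * w 1 := by
  rw [Finsupp.weight_apply, Finsupp.sum_fintype _ _ (by simp), Fin.sum_univ_two]
  simp

theorem coeff_whc (w : Fin 2 → ℕ) (n : ℕ) (P : MvPolynomial (Fin 2) K) (d : Fin 2 →₀ ℕ) :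
    coeff d (weightedHomogeneousComponent w n P) =
      if d 0 * w 0 + d 1 * w 1 = n then coeff d P else 0 := by
  rw [coeff_weightedHomogeneousComponent, weight_eq]

theorem coeff_hc (n : ℕ) (P : MvPolynomial (Fin 2) K) (d : Fin 2 →₀ ℕ) :
    coeff d (homogeneousComponent n P) = if d 0 + d 1 = n then coeff d P else 0 := by
  rw [coeff_homogeneousComponent, Finsupp.degree_eq_sum, Fin.sum_univ_two]

theorem pow_dvd_of_support {i : Fin 2} {k : ℕ} {p : MvPolynomial (Fin 2) K}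
    (h : ∀ d ∈ p.support, k ≤ d i) : X i ^ k ∣ p := by
  rw [p.as_sum]
  refine Finset.dvd_sum fun d hd => ?_
  rw [X_pow_eq_monomial, monomial_dvd_monomial]
  refine ⟨Or.inr ?_, one_dvd _⟩
  rw [Finsupp.single_le_iff]
  exact h d hd

theorem le_of_pow_dvd {i : Fin 2} {k : ℕ} {p : MvPolynomial (Fin 2) K}
    (h : X i ^ k ∣ p) (d : Fin 2 →₀ ℕ) (hd : d ∈ p.support) : k ≤ d i := by
  obtain ⟨g, rfl⟩ := h
  rw [mem_support_iff, X_pow_eq_monomial, coeff_monomial_mul'] at hd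
  by_contra hlt
  apply hd
  rw [if_neg]
  rw [Finsupp.single_le_iff]
  exact hlt

theorem exists_support_of_not_dvd {i : Fin 2} {p : MvPolynomial (Fin 2) K}
    (h : ¬ X i ∣ p) : ∃ d ∈ p.support, d i = 0 := by
  by_contra hcon
  push Not at hcon
  apply h
  have := pow_dvd_of_support (k := 1) (fun d hd => Nat.one_le_iff_ne_zero.2 (hcon d hd))
  simpa using this

theorem hom_support {w : Fin 2 → ℕ} {q : MvPolynomial (Fin 2) K} {e : ℕ}
    (h : IsWeightedHomogeneous w q e) {d : Fin 2 →₀ ℕ} (hd : d ∈ q.support) :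
    d 0 * w 0 + d 1 * w 1 = e := by
  rw [← weight_eq]
  exact h (mem_support_iff.1 hd)

theorem exists_mult {q T : MvPolynomial (Fin 2) K} (hq : Irreducible q) (hT : T ≠ 0)
    (hqT : q ∣ T) : ∃ m, 1 ≤ m ∧ q ^ m ∣ T ∧ ¬ q ^ (m + 1) ∣ T := by
  obtain ⟨n, a, ha, rfl⟩ := WfDvdMonoid.max_power_factor hT hq
  refine ⟨n, ?_, Dvd.intro _ rfl, ?_⟩
  · by_contra hn
    have : n = 0 := by omega
    subst this
    exact ha (by simpa using hqT)
  · rw [pow_succ, mul_dvd_mul_iff_left (pow_ne_zero n hq.ne_zero)]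
    exact ha

theorem weight_le {w : Fin 2 → ℕ} {T q : MvPolynomial (Fin 2) K} {n e m : ℕ}
    (hT : IsWeightedHomogeneous w T n) (hT0 : T ≠ 0) (hq : IsWeightedHomogeneous w q e)
    (h : q ^ m ∣ T) : m * e ≤ n := by
  obtain ⟨r, rfl⟩ := h
  obtain ⟨e', he'⟩ := ord_hom_of_mul (p := r) (r := q ^ m) (by rwa [mul_comm]) (by rwa [mul_comm])
  have := IsWeightedHomogeneous.inj_right hT0 hT ((hq.pow m).mul he')
  simp at this
  omega

theorem hom_of_dvd {w : Fin 2 → ℕ} {T q : MvPolynomial (Fin 2) K} {n : ℕ}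
    (hT : IsWeightedHomogeneous w T n) (hT0 : T ≠ 0) (h : q ∣ T) :
    ∃ e, IsWeightedHomogeneous w q e := by
  obtain ⟨r, rfl⟩ := h
  exact ord_hom_of_mul hT hT0

theorem weight_le' {w : Fin 2 → ℕ} {T q : MvPolynomial (Fin 2) K} {n e : ℕ}
    (hT : IsWeightedHomogeneous w T n) (hT0 : T ≠ 0) (hq : IsWeightedHomogeneous w q e)
    (h : q ∣ T) : e ≤ n := by
  have := weight_le (m := 1) hT hT0 hq (by simpa using h)
  omega

/-- a polynomial of positive `i'`-exponent with a factor of `X i ^ p` split off has a further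
irreducible factor -/
theorem exists_factor {i : Fin 2} {T : MvPolynomial (Fin 2) K} (hT : T ≠ 0)
    {d : Fin 2 →₀ ℕ} (hd : d ∈ T.support) {i' : Fin 2} (hii : i' ≠ i) (hd1 : 1 ≤ d i') :
    ∃ (p : ℕ) (g q : MvPolynomial (Fin 2) K), T = X i ^ p * g ∧ ¬ X i ∣ g ∧ Irreducible q ∧ q ∣ g ∧
      ¬ q ∣ X i := by
  obtain ⟨p, g, hg, rfl⟩ := WfDvdMonoid.max_power_factor hT (X_prime (i := i)).irreducible
  have hg0 : g ≠ 0 := right_ne_zero_of_mul hT
  have hgu : ¬ IsUnit g := by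
    intro hu
    rw [MvPolynomial.isUnit_iff_eq_C_of_isReduced] at hu
    obtain ⟨r, hr, rfl⟩ := hu
    rw [mem_support_iff, X_pow_eq_monomial, mul_comm, coeff_C_mul, coeff_monomial] at hd
    apply hd
    rw [if_neg, mul_zero]
    rintro rfl
    rw [Finsupp.single_eq_of_ne hii] at hd1
    omega
  obtain ⟨q, hq, hqg⟩ := WfDvdMonoid.exists_irreducible_factor hgu hg0
  refine ⟨p, g, q, rfl, hg, hq, hqg, ?_⟩
  intro hqX
  have : Associated q (X i) := hq.associated_of_dvd (X_prime (i := i)).irreducible hqX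
  exact hg (this.symm.dvd.trans hqg)

end Pool.Agent.H790.EG
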