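import Pool.Agent.H790.EG.Basic

set_option autoImplicit false

open MvPolynomial Pool.Agent.H88R2.DC Pool.Agent.H193R5.EG

namespace Pool.Agent.H790.EG

theorem rone_holds : RONE := by
  intro K _ _ P n hn hBig hdeg c hc htop
  classical
  by_cases hall : ∀ d ∈ P.support, d 1 = 0
  · exact Or.inl hall
  right
  push Not at hall
  obtain ⟨d₀, hd₀, hd₀1⟩ := hall
  -- minimal slope
  have hSne : (P.support.filter fun d => 1 ≤ d 1).Nonempty :=
    ⟨d₀, by rw [Finset.mem_filter]; exact ⟨hd₀, by omega⟩⟩
  obtain ⟨e, he, hmin⟩ := Finset.exists_min_image _ (fun d => ((n : ℚ) - d 0) / d 1) hSne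
  rw [Finset.mem_filter] at he
  obtain ⟨heP, he1⟩ := he
  obtain ⟨j, hj⟩ : ∃ j, e 1 = j := ⟨_, rfl⟩
  have hj1 : 1 ≤ j := by omega
  have hsum : e 0 + e 1 ≤ n := hdeg e heP
  obtain ⟨u, hu⟩ : ∃ u, n = e 0 + u := ⟨n - e 0, by omega⟩
  have hju : j < u := by
    rcases Nat.lt_or_ge j u with h | h
    · exact h
    exfalso
    have h1 : e 0 + e 1 = n := by omega
    have h2 := coeff_hc n P e
    rw [if_pos h1, htop] at h2
    rw [mem_support_iff, ← h2, X_pow_eq_monomial, coeff_C_mul, coeff_monomial] at heP
    apply heP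
    rw [if_neg, mul_zero]
    intro h3
    rw [← h3] at he1
    simp at he1
  set w : Fin 2 → ℕ := ![j, u] with hw
  have hw0 : w 0 = j := rfl
  have hw1 : w 1 = u := rfl
  have hwpos : ∀ i, 0 < w i := by
    intro i; fin_cases i
    · exact hj1
    · change 0 < u; omega
  have hwt : ∀ d ∈ P.support, d 0 * w 0 + d 1 * w 1 ≤ n * j := by
    intro d hd
    rw [hw0, hw1]
    have hdn := hdeg d hd
    by_cases hd1 : 1 ≤ d 1
    · have h1 := hmin d (by rw [Finset.mem_filter]; exact ⟨hd, hd1⟩)
      have p1 : (0 : ℚ) < e 1 := by exact_mod_cast (by omega : 0 < e 1)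
      have p2 : (0 : ℚ) < d 1 := by exact_mod_cast (by omega : 0 < d 1)
      rw [div_le_div_iff₀ p1 p2] at h1
      have h2 : (d 0 : ℚ) * j + d 1 * u ≤ n * j := by
        have h3 : (n : ℚ) - e 0 = u := by rw [hu]; push_cast; ring
        rw [h3, hj] at h1
        linarith
      exact_mod_cast h2
    · have h1 : d 1 = 0 := by omega
      rw [h1, zero_mul, add_zero]
      exact Nat.mul_le_mul_right j (by omega)
  set T := weightedHomogeneousComponent w (n * j) P with hT
  have hThom : IsWeightedHomogeneous w T (n * j) :=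
    weightedHomogeneousComponent_isWeightedHomogeneous _ _
  have hTe : e ∈ T.support := by
    rw [mem_support_iff, coeff_whc, if_pos]
    · exact mem_support_iff.1 heP
    · rw [hw0, hw1, hj, hu]; ring
  have hT0 : T ≠ 0 := by
    rintro h
    rw [h] at hTe
    simp at hTe
  have hTn : Finsupp.single 0 n ∈ T.support := by
    rw [mem_support_iff, coeff_whc, if_pos]
    · have h2 := coeff_hc n P (Finsupp.single 0 n)
      rw [if_pos (by simp), htop, X_pow_eq_monomial, coeff_C_mul, coeff_monomial, if_pos rfl,
        mul_one] at h2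
      rw [← h2]; exact hc
    · rw [hw0, hw1]; simp
  have hYT : ¬ X 1 ∣ T := by
    intro h
    have := le_of_pow_dvd (k := 1) (by simpa using h) _ hTn
    simp at this
  obtain ⟨p, g, q, hTg, hXg, hq, hqg, hqX⟩ := exists_factor hT0 hTe (i := 0) (i' := 1) (by decide)
    (by omega)
  have hqT : q ∣ T := by rw [hTg]; exact hqg.mul_left _
  have hqX' : ¬ X 0 ∣ q := fun h => hXg (h.trans hqg)
  have hqY' : ¬ X 1 ∣ q := fun h => hYT (h.trans hqT)
  obtain ⟨m, hm1, hmd, hmd'⟩ := exists_mult hq hT0 hqT
  have hB := hBig w hwpos (n * j) hwt q hq m hm1 hmd hmd'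
  obtain ⟨ω, hω⟩ := hom_of_dvd hThom hT0 hqT
  obtain ⟨dY, hdY, hdY0⟩ := exists_support_of_not_dvd hqX'
  obtain ⟨dX, hdX, hdX1⟩ := exists_support_of_not_dvd hqY'
  have e1 := hom_support hω hdY
  have e2 := hom_support hω hdX
  rw [hdY0, zero_mul, zero_add, hw1] at e1
  rw [hdX1, zero_mul, add_zero, hw0] at e2
  have hmω := weight_le hThom hT0 hω hmd
  rw [hw0, hw1] at hB
  -- b = 1
  have hωle : ω ≤ j + u := by
    have : m * ω ≤ m * (j + u) := hmω.trans hB
    exact Nat.le_of_mul_le_mul_left this (by omega)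
  have hωpos : ω ≠ 0 := by
    rintro rfl
    obtain ⟨r, hr⟩ := ord_hom_zero hwpos hω
    apply hq.not_isUnit
    rw [hr]
    refine (isUnit_iff_ne_zero.2 ?_).map C
    rintro rfl
    exact hq.ne_zero (by rw [hr, map_zero])
  have hb : dY 1 = 1 := by
    have h1 : dY 1 * u < 2 * u := by omega
    have h2 : dY 1 < 2 := Nat.lt_of_mul_lt_mul_right h1
    have h3 : dY 1 ≠ 0 := by
      intro h; rw [h] at e1; omega
    omega
  rw [hb, one_mul] at e1
  obtain ⟨a, ha⟩ : ∃ a, dX 0 = a := ⟨_, rfl⟩
  rw [ha] at e2
  have hua : u = a * j := by omega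
  have ha2 : 2 ≤ a := by
    by_contra h
    have : a ≤ 1 := by omega
    have : a * j ≤ 1 * j := Nat.mul_le_mul_right j this
    omega
  -- shape of q
  set α := coeff dY q with hα
  set β := coeff dX q with hβ
  have hα0 : α ≠ 0 := mem_support_iff.1 hdY
  have hdYe : dY = Finsupp.single 1 1 := by
    ext i; fin_cases i
    · simpa using hdY0
    · simpa using hb
  have hdXe : dX = Finsupp.single 0 a := by
    ext i; fin_cases i
    · simpa using ha
    · simpa using hdX1
  have hqeq : q = C α * X 1 + C β * X 0 ^ a := by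
    ext d
    rw [coeff_add, coeff_C_mul, coeff_C_mul, X_pow_eq_monomial, coeff_monomial,
      show (X 1 : MvPolynomial (Fin 2) K) = monomial (Finsupp.single 1 1) 1 from rfl,
      coeff_monomial]
    by_cases hdq : d ∈ q.support
    · have e3 := hom_support hω hdq
      rw [hw0, hw1] at e3
      have h4 : d 1 = 0 ∨ d 1 = 1 := by
        by_contra h
        have : 2 ≤ d 1 := by omega
        have := Nat.mul_le_mul_right u this
        omega
      rcases h4 with h4 | h4
      · have h5 : d 0 = a := by
          rw [h4, zero_mul, add_zero, ← e2] at e3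
          exact Nat.eq_of_mul_eq_mul_right (by omega) e3
        have hd : d = Finsupp.single 0 a := by
          ext i; fin_cases i
          · simpa using h5
          · simpa using h4
        rw [hd]
        have hne : (Finsupp.single 1 1 : Fin 2 →₀ ℕ) ≠ Finsupp.single 0 a := by
          intro h
          have := DFunLike.congr_fun h 1
          simp at this
        rw [if_neg hne, if_pos rfl, mul_zero, zero_add, mul_one, hβ, hdXe]
      · have h5 : d 0 = 0 := by
          rw [h4, one_mul] at e3
          have : d 0 * j = 0 := by omega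
          rcases Nat.mul_eq_zero.1 this with h | h
          · exact h
          · omega
        have hd : d = Finsupp.single 1 1 := by
          ext i; fin_cases i
          · simpa using h5
          · simpa using h4
        rw [hd]
        have hne : (Finsupp.single 0 a : Fin 2 →₀ ℕ) ≠ Finsupp.single 1 1 := by
          intro h
          have := DFunLike.congr_fun h 1
          simp at this
        rw [if_neg hne, if_pos rfl, mul_zero, add_zero, mul_one, hα, hdYe]
    · have h0 : coeff d q = 0 := by
        rwa [mem_support_iff, not_not] at hdq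
      have n1 : (Finsupp.single 1 1 : Fin 2 →₀ ℕ) ≠ d := by
        rintro h; apply hdq; rw [← h, ← hdYe]; exact hdY
      have n2 : (Finsupp.single 0 a : Fin 2 →₀ ℕ) ≠ d := by
        rintro h; apply hdq; rw [← h, ← hdXe]; exact hdX
      rw [h0, if_neg n1, if_neg n2, mul_zero, mul_zero, add_zero]
  refine ⟨a, -β / α, ha2, ?_, ?_⟩
  · intro d hd
    have h1 := hwt d hd
    rw [hw0, hw1, hua] at h1
    have h2 : (d 0 + d 1 * a) * j ≤ n * j := by
      calc (d 0 + d 1 * a) * j = d 0 * j + d 1 * (a * j) := by ring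
        _ ≤ n * j := h1
    exact Nat.le_of_mul_le_mul_right h2 (by omega)
  · have hTT : weightedHomogeneousComponent (wt 1 a) n P = T := by
      ext d
      rw [coeff_whc, hT, coeff_whc]
      have : (d 0 * wt 1 a 0 + d 1 * wt 1 a 1 = n) ↔ (d 0 * w 0 + d 1 * w 1 = n * j) := by
        have e3 : d 0 * w 0 + d 1 * w 1 = (d 0 * wt 1 a 0 + d 1 * wt 1 a 1) * j := by
          rw [hw0, hw1, hua]
          change _ = (d 0 * 1 + d 1 * a) * j
          ring
        rw [e3]
        constructor
        · intro h; rw [h]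
        · intro h; exact Nat.eq_of_mul_eq_mul_right (by omega) h
      simp only [this]
    rw [hTT]
    obtain ⟨r, hr⟩ := hqT
    rw [hr, map_mul, hqeq]
    have : aeval ![X 0, C (-β / α) * X 0 ^ a] (C α * X 1 + C β * X 0 ^ a) =
        (0 : MvPolynomial (Fin 2) K) := by
      simp only [map_add, map_mul, map_pow, aeval_X, Matrix.cons_val_zero, Matrix.cons_val_one,
        algHom_C, algebraMap_eq]
      rw [← mul_assoc, ← C_mul]
      rw [show α * (-β / α) = -β by field_simp]
      rw [C_neg]
      ring
    rw [this, zero_mul]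

end Pool.Agent.H790.EG
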